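import Pool.Agent.Helper27.T5.Sch
import Pool.Agent.Helper30.T5.Size

/-!
# T5a: the chain of scales

`XT T l = Nj l * T (era l)` where `T j` lies in `[10^(6 W), 2 * 10^(6 W)]`, `W = W m j 1`.
-/

set_option autoImplicit false

namespace Pool.Agent.Helper27.T5

open Finset Pool.Agent.Helper5.ET Pool.Agent.Helper27.T4 Pool.Agent.Helper37.T5

/-- lower end of the scale of the state `l` -/
def XT (T : ℕ → ℕ) (l : ℕ) : ℕ := Nj l * T (era l)

/-- bounds of the inner part -/
structure TB (m : ℕ) (T : ℕ → ℕ) : Prop where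
  lo : ∀ j, (10 ^ 6) ^ (W m j 1) ≤ T j
  hi : ∀ j, T j ≤ 2 * (10 ^ 6) ^ (W m j 1)

variable {m : ℕ} {T : ℕ → ℕ}

theorem Nj_pos1 (l : ℕ) : 0 < Nj l := NN_pos pr_prime _

theorem TB.pos (h : TB m T) (j : ℕ) : 0 < T j := lt_of_lt_of_le (by positivity) (h.lo j)

theorem TB.le (h : TB m T) (hm : 0 < m) {i j : ℕ} (hij : i ≤ j) : T i ≤ 2 * T j := by
  have h1 : (10 ^ 6) ^ (W m i 1) ≤ (10 ^ 6) ^ (W m j 1) :=
    Nat.pow_le_pow_right (by norm_num) (W_mono_one hm hij)
  have h2 := h.hi i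
  have h3 := h.lo j
  omega

theorem XT_pos (h : TB m T) (l : ℕ) : 0 < XT T l := Nat.mul_pos (Nj_pos1 l) (h.pos _)

/-- the chain grows by a factor at least 2 in every step -/
theorem XT_succ (h : TB m T) (hm : 0 < m) (l : ℕ) : 2 * XT T l ≤ XT T (l + 1) := by
  have h1 : Nj l * 1000003 ≤ Nj (l + 1) := Pool.Agent.Helper50.ET.Nj_succ_ge l
  have h2 := h.le hm (era_mono (Nat.le_succ l))
  unfold XT
  calc 2 * (Nj l * T (era l)) ≤ 2 * (Nj l * (2 * T (era (l + 1)))) := by gcongr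
    _ = (Nj l * 4) * T (era (l + 1)) := by ring
    _ ≤ (Nj l * 1000003) * T (era (l + 1)) := by gcongr; norm_num
    _ ≤ Nj (l + 1) * T (era (l + 1)) := by gcongr

theorem XT_mono (h : TB m T) (hm : 0 < m) : Monotone (XT T) := by
  apply monotone_nat_of_le_succ
  intro l
  have := XT_succ h hm l
  omega

theorem XT_same (T : ℕ → ℕ) {l' l : ℕ} (hl : l' ≤ l) (he : era l' = era l) :
    XT T l = XT T l' * pr (fam (era l)) ^ (l - l') := by
  unfold XT
  rw [Nj_era hl he, he]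
  ring

theorem pr_le (f : Fin 3) : pr f ≤ 1000037 := by fin_cases f <;> simp [pr]

theorem pr_ge (f : Fin 3) : 1000003 ≤ pr f := by fin_cases f <;> simp [pr]

theorem XT_same_le (T : ℕ → ℕ) {l' l : ℕ} (hl : l' ≤ l) (he : era l' = era l) :
    XT T l ≤ 1000037 ^ (l - l') * XT T l' := by
  rw [XT_same T hl he, mul_comm]
  gcongr
  exact pr_le _

theorem era_add_two {l : ℕ} (h : used m l) (hb : 10 * m ≤ la (era l)) (hm : 1 < m) :
    era (l + 1) = era l ∧ era (l + 2) = era l := by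
  have h1 := used_lt h hb hm
  have h2 := used_bb h
  have h3 := W_pos m (era l) 1
  exact ⟨era_eq _ _ (by omega) (by omega), era_eq _ _ (by omega) (by omega)⟩

theorem XT_two (T : ℕ → ℕ) {l : ℕ} (h : used m l) (hb : 10 * m ≤ la (era l)) (hm : 1 < m) :
    XT T (l + 2) ≤ 1000037 ^ 2 * XT T l := by
  have := XT_same_le T (show l ≤ l + 2 by omega) (era_add_two h hb hm).2.symm
  simpa using this

/-! ## logarithms -/

theorem log_pr : Real.log 1000037 ≤ 14 := by
  have h1 : (1000037 : ℝ) ≤ 2 ^ (20 : ℕ) := by norm_num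
  have h2 : Real.log 1000037 ≤ Real.log (2 ^ (20 : ℕ)) := Real.log_le_log (by norm_num) h1
  rw [Real.log_pow] at h2
  have h3 := Real.log_two_lt_d9
  push_cast at h2
  linarith

theorem log_base_le : Real.log (10 ^ 6) ≤ 14 := by
  refine le_trans (Real.log_le_log (by norm_num) ?_) log_pr
  norm_num

theorem log_base_ge : (13.7 : ℝ) ≤ Real.log (10 ^ 6) := by
  have h1 : (2 : ℝ) ^ 199 ≤ (10 ^ 6) ^ 10 := by norm_num
  have h2 := Real.log_le_log (by positivity) h1
  rw [Real.log_pow, Real.log_pow] at h2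
  have h3 := Real.log_two_gt_d9
  clear h1
  generalize Real.log (10 ^ 6) = y at *
  generalize Real.log 2 = x at *
  norm_num at h2
  nlinarith

theorem log_XT_sub (h : TB m T) {y z : ℕ} (hyz : y ≤ z) :
    Real.log (XT T z) - Real.log (XT T y) ≤ 14 * (z - y) + 14 * W m (era z) 1 + 1 := by
  have h1 : Nj z ≤ Nj y * 1000037 ^ (z - y) := Pool.Agent.Helper30.ET.Nj_upper hyz
  have hy : (0 : ℝ) < XT T y := by exact_mod_cast XT_pos h y
  have hz : (0 : ℝ) < XT T z := by exact_mod_cast XT_pos h z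
  have h2 : XT T z ≤ XT T y * (1000037 ^ (z - y) * (2 * (10 ^ 6) ^ (W m (era z) 1))) := by
    unfold XT
    have h3 := h.hi (era z)
    have h4 := h.pos (era y)
    calc Nj z * T (era z) ≤ (Nj y * 1000037 ^ (z - y)) * (2 * (10 ^ 6) ^ (W m (era z) 1)) := by
          gcongr
      _ = (Nj y * 1) * (1000037 ^ (z - y) * (2 * (10 ^ 6) ^ (W m (era z) 1))) := by ring
      _ ≤ (Nj y * T (era y)) * (1000037 ^ (z - y) * (2 * (10 ^ 6) ^ (W m (era z) 1))) := by
          gcongr
          exact h4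
  have h5 : (XT T z : ℝ) ≤
      XT T y * (1000037 ^ (z - y) * (2 * (10 ^ 6) ^ (W m (era z) 1))) := by
    exact_mod_cast h2
  have h6 := Real.log_le_log hz h5
  rw [Real.log_mul (by positivity) (by positivity), Real.log_mul (by positivity) (by positivity),
    Real.log_mul (by positivity) (by positivity), Real.log_pow, Real.log_pow] at h6
  have h7 : ((z - y : ℕ) : ℝ) = (z : ℝ) - y := by rw [Nat.cast_sub hyz]
  rw [h7] at h6
  have h8 : (0 : ℝ) ≤ (z : ℝ) - y := by
    have : (y : ℝ) ≤ z := by exact_mod_cast hyz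
    linarith
  have h9 := mul_le_mul_of_nonneg_left log_pr h8
  have h10 := mul_le_mul_of_nonneg_left log_base_le (show (0 : ℝ) ≤ W m (era z) 1 by positivity)
  have h11 : Real.log 2 ≤ 1 := by
    have := Real.log_two_lt_d9
    linarith
  linarith

theorem log_XT_mono (h : TB m T) (hm : 0 < m) {y z : ℕ} (hyz : y ≤ z) :
    Real.log (XT T y) ≤ Real.log (XT T z) := by
  apply Real.log_le_log
  · exact_mod_cast XT_pos h y
  · exact_mod_cast XT_mono h hm hyz

theorem W_le_rpow_l (hm : 0 < m) {l : ℕ} (hl : bb 0 ≤ l) :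
    (W m (era l) 1 : ℝ) ≤ 2 * (l : ℝ) ^ (1 - 1 / (m : ℝ)) := by
  have h1 := Pool.Agent.Helper30.T5.W_le_rpow hm (show 1 ≤ m from hm) (era l)
  have h2 : (bb (era l) : ℝ) ≤ l := by exact_mod_cast (era_spec l hl).1
  have h3 : (0 : ℝ) ≤ 1 - 1 / (m : ℝ) := by
    have : (1 : ℝ) ≤ m := by exact_mod_cast hm
    have : 1 / (m : ℝ) ≤ 1 := by
      rw [div_le_one (by linarith)]
      exact this
    linarith
  have h4 := Real.rpow_le_rpow (Nat.cast_nonneg _) h2 h3
  simp only [pow_one, Nat.cast_one] at h1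
  linarith

/-- bound of `W` at `K + 2` by a power of `K` -/
theorem W_two_le (hm : 0 < m) {c' : ℝ} (hc : c' ≤ 1 / m) {K : ℕ} (hK : bb 0 ≤ K) :
    (W m (era (K + 2)) 1 : ℝ) ≤ 4 * (K : ℝ) ^ (1 - c') ∧ (1 : ℝ) ≤ (K : ℝ) ^ (1 - c') := by
  have h0 : 2 ^ 64 ≤ K := hK
  have hm1 : (1 : ℝ) ≤ m := by exact_mod_cast hm
  have h5 : 1 / (m : ℝ) ≤ 1 := by
    rw [div_le_one (by linarith)]
    exact hm1
  have h6 : (0 : ℝ) < 1 / (m : ℝ) := by positivity
  have hK1 : (1 : ℝ) ≤ K := by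
    have : 1 ≤ K := le_trans (by norm_num) h0
    exact_mod_cast this
  have h1 := W_le_rpow_l (m := m) hm (show bb 0 ≤ K + 2 by omega)
  have h2 : ((K + 2 : ℕ) : ℝ) ≤ 2 * K := by
    have : K + 2 ≤ 2 * K := by
      have : 2 ≤ K := le_trans (by norm_num) h0
      omega
    exact_mod_cast this
  have h3 : ((K + 2 : ℕ) : ℝ) ^ (1 - 1 / (m : ℝ)) ≤ (2 * K) ^ (1 - 1 / (m : ℝ)) :=
    Real.rpow_le_rpow (Nat.cast_nonneg _) h2 (by linarith)
  rw [Real.mul_rpow (by norm_num) (by linarith)] at h3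
  have h4 : (2 : ℝ) ^ (1 - 1 / (m : ℝ)) ≤ 2 := by
    calc (2 : ℝ) ^ (1 - 1 / (m : ℝ)) ≤ 2 ^ (1 : ℝ) :=
          Real.rpow_le_rpow_of_exponent_le (by norm_num) (by linarith)
      _ = 2 := by simp
  have h7 : (K : ℝ) ^ (1 - 1 / (m : ℝ)) ≤ (K : ℝ) ^ (1 - c') :=
    Real.rpow_le_rpow_of_exponent_le hK1 (by linarith)
  have h8 : (1 : ℝ) ≤ (K : ℝ) ^ (1 - c') := Real.one_le_rpow hK1 (by linarith)
  have h9 : (0 : ℝ) ≤ (K : ℝ) ^ (1 - 1 / (m : ℝ)) := by positivity
  refine ⟨?_, h8⟩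
  nlinarith

theorem exists_era_ge (j0 : ℕ) : ∃ K2, ∀ K ≥ K2, bb (j0 + 1) ≤ K := ⟨bb (j0 + 1), fun _ h => h⟩

/-- (H1) -/
theorem sch_H1 (h : TB m T) (hm : 1 < m) {c' : ℝ} (hc : c' ≤ 1 / m) :
    ∀ K1 : ℕ, ∃ K2 : ℕ, ∀ K, K2 ≤ K → ∃ K', K1 ≤ K' ∧ K' ≤ K ∧ used m K' ∧
      Real.log (XT T (K + 2)) - Real.log (XT T K') ≤ 30000 * (K : ℝ) ^ (1 - c') := by
  intro K1
  obtain ⟨j0, hj0⟩ := exists_large m
  refine ⟨max (bb (j0 + 1)) (2 * K1), fun K hK => ?_⟩
  have hK1 := le_trans (le_max_left _ _) hK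
  have hK2 := le_trans (le_max_right _ _) hK
  have hb0 : bb 0 ≤ K := (bb_strictMono.monotone (Nat.zero_le _)).trans hK1
  obtain ⟨l, hl, hu, he, hd⟩ := exists_used hj0 hm hK1
  have hbe : bb (era K) ≤ K := (era_spec K hb0).1
  have hje : j0 ≤ era K := he.trans (era_mono hl)
  have hW : 2 ^ 10 * W m (era K) 1 ≤ bb (era K) := by
    have h2 := W_zero_le m (era K)
    rw [W_succ (show 0 < m by omega)] at h2
    have h3 := Nat.mul_le_mul_right (W m (era K) (0 + 1)) (rt_ge (hj0 _ hje) (show 0 < m by omega))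
    exact h3.trans h2
  refine ⟨l, by omega, hl, hu, ?_⟩
  have h1 := log_XT_sub h (show l ≤ K + 2 by omega)
  obtain ⟨h2, h3⟩ := W_two_le (m := m) (by omega) hc hb0
  have h4 : (K : ℝ) ≤ l + 402 * W m (era K) 1 := by exact_mod_cast hd
  have h5 : (W m (era K) 1 : ℝ) ≤ W m (era (K + 2)) 1 := by
    exact_mod_cast W_mono_one (show 0 < m by omega) (era_mono (show K ≤ K + 2 by omega))
  push_cast at h1
  linarith

theorem abs_log_XT (h : TB m T) (hm : 0 < m) {y z : ℕ} :
    |Real.log (XT T z) - Real.log (XT T y)| ≤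
      14 * |(z : ℝ) - y| + 14 * W m (era (max y z)) 1 + 1 := by
  rcases le_total y z with h1 | h1
  · have h2 := log_XT_sub h h1
    have h3 := log_XT_mono h hm h1
    have h4 : (y : ℝ) ≤ z := by exact_mod_cast h1
    rw [max_eq_right h1, abs_of_nonneg (by linarith), abs_of_nonneg (by linarith)]
    exact h2
  · have h2 := log_XT_sub h h1
    have h3 := log_XT_mono h hm h1
    have h4 : (z : ℝ) ≤ y := by exact_mod_cast h1
    rw [max_eq_left h1, abs_of_nonpos (by linarith), abs_of_nonpos (by linarith)]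
    linarith

theorem W_one_succ_le (m j : ℕ) : W m (j + 1) 1 ≤ 2 * W m j 1 := by
  unfold W
  rw [← pow_succ']
  apply Nat.pow_le_pow_right (by norm_num)
  have h1 := la_succ_le j
  have h2 := la_mono (Nat.le_succ j)
  have h3 : la j / m ≤ la (j + 1) / m := Nat.div_le_div_right h2
  rw [one_mul, one_mul]
  generalize la j / m = q at *
  generalize la (j + 1) / m = q' at *
  omega

/-- an unused position of a large era is near a border -/
theorem near_border {y j0 : ℕ} (hj0 : ∀ j ≥ j0, 10 * m ≤ la j) (hm : 1 < m)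
    (hy : bb (j0 + 1) ≤ y) (hu : ¬ used m y) :
    ∃ i, j0 + 1 ≤ i ∧ |(y : ℝ) - bb i| ≤ 201 * W m (era y) 1 ∧
      (i = era y ∨ i = era y + 1) := by
  have hy0 : bb 0 ≤ y := (bb_strictMono.monotone (Nat.zero_le _)).trans hy
  obtain ⟨h1, h2⟩ := era_spec y hy0
  have hj : j0 + 1 ≤ era y := by
    by_contra hc
    have := bb_strictMono.monotone (show era y + 1 ≤ j0 + 1 by omega)
    omega
  have hb := hj0 (era y) (by omega)
  rcases Nat.lt_or_ge y (bb (era y) + 200 * W m (era y) 1) with hA | hA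
  · refine ⟨era y, hj, ?_, Or.inl rfl⟩
    have a1 : (bb (era y) : ℝ) ≤ y := by exact_mod_cast h1
    have a2 : (y : ℝ) < bb (era y) + 200 * W m (era y) 1 := by exact_mod_cast hA
    have a3 : (0 : ℝ) ≤ W m (era y) 1 := Nat.cast_nonneg _
    rw [abs_of_nonneg (by linarith)]
    linarith
  · have hB : bb (era y + 1) < y + 201 * W m (era y) 1 := by
      by_contra hc
      exact hu (used_of_mem hb hm hA (by omega))
    refine ⟨era y + 1, by omega, ?_, Or.inr rfl⟩
    have a1 : (y : ℝ) < bb (era y + 1) := by exact_mod_cast h2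
    have a2 : (bb (era y + 1) : ℝ) < y + 201 * W m (era y) 1 := by exact_mod_cast hB
    rw [abs_of_nonpos (by linarith)]
    linarith

/-- (H2), borders numbered from `j1` on -/
theorem sch_H2 (h : TB m T) (hm : 1 < m) {c' : ℝ} (hc : c' ≤ 1 / m) (j1 : ℕ) :
    ∃ K2 : ℕ, ∀ K, K2 ≤ K → (used m K ∧ XT T (K + 2) ≤ 1000037 ^ 2 * XT T K) ∨
      ∃ j, |Real.log (XT T (K + 2)) - Real.log (XT T (bb (j1 + j)))| ≤
          30000 * (K : ℝ) ^ (1 - c') ∧
        |Real.log (XT T K) - Real.log (XT T (bb (j1 + j)))| ≤ 30000 * (K : ℝ) ^ (1 - c') := by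
  obtain ⟨j0', hj0'⟩ := exists_large m
  set j0 := max j0' j1 with hj0def
  have hj0 : ∀ j ≥ j0, 10 * m ≤ la j := fun j hj => hj0' j (le_trans (le_max_left _ _) hj)
  refine ⟨bb (j0 + 1), fun K hK => ?_⟩
  have hb0 : bb 0 ≤ K := (bb_strictMono.monotone (Nat.zero_le _)).trans hK
  have hje : j0 + 1 ≤ era K := by
    have h2 := (era_spec K hb0).2
    by_contra hc
    have := bb_strictMono.monotone (show era K + 1 ≤ j0 + 1 by omega)
    omega
  by_cases hu : used m K
  · exact Or.inl ⟨hu, XT_two T hu (hj0 _ (by omega)) hm⟩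
  · right
    obtain ⟨i, hi0, hi, hi2⟩ := near_border hj0 hm hK hu
    have hij : j1 ≤ i := by
      have : j1 ≤ j0 := le_max_right _ _
      omega
    refine ⟨i - j1, ?_⟩
    rw [show j1 + (i - j1) = i by omega]
    obtain ⟨h2, h3⟩ := W_two_le (m := m) (by omega) hc hb0
    have h5 : (W m (era K) 1 : ℝ) ≤ W m (era (K + 2)) 1 := by
      exact_mod_cast W_mono_one (show 0 < m by omega) (era_mono (show K ≤ K + 2 by omega))
    -- the era of the larger point is at most `era K + 1`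
    have hE : ∀ z, z ≤ K + 2 → (W m (era (max (bb i) z)) 1 : ℝ) ≤ 2 * W m (era (K + 2)) 1 := by
      intro z hz
      have b1 : era (max (bb i) z) ≤ era (K + 2) + 1 := by
        rcases le_total (bb i) z with b2 | b2
        · rw [max_eq_right b2]
          exact (era_mono hz).trans (Nat.le_succ _)
        · rw [max_eq_left b2, era_bb]
          have b3 := era_mono (show K ≤ K + 2 by omega)
          rcases hi2 with b4 | b4 <;> omega
      have b5 := W_mono_one (show 0 < m by omega) b1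
      have b6 : W m (era (K + 2) + 1) 1 ≤ 2 * W m (era (K + 2)) 1 := W_one_succ_le m _
      exact_mod_cast b5.trans b6
    have hK2 := hE (K + 2) le_rfl
    have hK0 := hE K (by omega)
    have a1 := abs_log_XT h (show 0 < m by omega) (y := bb i) (z := K + 2)
    have a2 := abs_log_XT h (show 0 < m by omega) (y := bb i) (z := K)
    have a3 : |((K + 2 : ℕ) : ℝ) - bb i| ≤ |(K : ℝ) - bb i| + 2 := by
      push_cast
      have : (K : ℝ) + 2 - bb i = ((K : ℝ) - bb i) + 2 := by ring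
      rw [this]
      refine (abs_add_le _ _).trans ?_
      norm_num
    constructor
    · linarith
    · linarith

theorem log_XT_le (h : TB m T) (z : ℕ) :
    Real.log (XT T z) ≤ 14 * z + 14 * W m (era z) 1 + 1 := by
  have h1 : Nj z ≤ 1000037 ^ z := Pool.Agent.Helper30.ET.Nj_le_pow z
  have hz : (0 : ℝ) < XT T z := by exact_mod_cast XT_pos h z
  have h2 : XT T z ≤ 1000037 ^ z * (2 * (10 ^ 6) ^ (W m (era z) 1)) :=
    Nat.mul_le_mul h1 (h.hi _)
  have h5 : (XT T z : ℝ) ≤ 1000037 ^ z * (2 * (10 ^ 6) ^ (W m (era z) 1)) := by exact_mod_cast h2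
  have h6 := Real.log_le_log hz h5
  rw [Real.log_mul (by positivity) (by positivity), Real.log_mul (by positivity) (by positivity),
    Real.log_pow, Real.log_pow] at h6
  have h9 := mul_le_mul_of_nonneg_left log_pr (show (0 : ℝ) ≤ z from Nat.cast_nonneg _)
  have h10 := mul_le_mul_of_nonneg_left log_base_le (show (0 : ℝ) ≤ W m (era z) 1 by positivity)
  have h11 : Real.log 2 ≤ 1 := by
    have := Real.log_two_lt_d9
    linarith
  linarith

theorem le_log_XT (h : TB m T) (z : ℕ) : 13.7 * (z : ℝ) ≤ Real.log (XT T z) := by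
  have h1 : 1000003 ^ z ≤ Nj z := by
    have := Pool.Agent.Helper30.ET.Nj_lower (Nat.zero_le z)
    rw [Pool.Agent.Helper30.ET.Nj_zero, one_mul, Nat.sub_zero] at this
    exact this
  have h2 : (10 ^ 6) ^ z ≤ XT T z := by
    unfold XT
    calc (10 ^ 6) ^ z ≤ 1000003 ^ z := Nat.pow_le_pow_left (by norm_num) z
      _ ≤ Nj z * 1 := by omega
      _ ≤ Nj z * T (era z) := Nat.mul_le_mul_left _ (h.pos _)
  have h3 : ((10 ^ 6 : ℝ)) ^ z ≤ XT T z := by exact_mod_cast h2
  have h4 := Real.log_le_log (by positivity) h3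
  rw [Real.log_pow] at h4
  have h5 := mul_le_mul_of_nonneg_left log_base_ge (show (0 : ℝ) ≤ z from Nat.cast_nonneg _)
  rw [mul_comm (13.7 : ℝ)]
  exact h5.trans h4

theorem W_one_small {j : ℕ} (hb : 10 * m ≤ la j) (hm : 0 < m) : 2 ^ 10 * W m j 1 ≤ bb j := by
  have h2 := W_zero_le m j
  rw [W_succ hm] at h2
  exact (Nat.mul_le_mul_right (W m j (0 + 1)) (rt_ge hb hm)).trans h2

/-- the logarithms of the borders grow by the factor `1.4` -/
theorem sch_14 (h : TB m T) (hm : 1 < m) :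
    ∃ j1, ∀ j ≥ j1, 1.4 * Real.log (XT T (bb j)) ≤ Real.log (XT T (bb (j + 1))) := by
  obtain ⟨j0, hj0⟩ := exists_large m
  refine ⟨j0, fun j hj => ?_⟩
  have h1 := log_XT_le h (bb j)
  have h2 := le_log_XT h (bb (j + 1))
  rw [era_bb] at h1
  have h3 : (2 ^ 10 : ℝ) * W m j 1 ≤ bb j := by
    exact_mod_cast W_one_small (hj0 j hj) (show 0 < m by omega)
  have h4 : 3 * bb j ≤ 2 * bb (j + 1) + 1 := by
    have := (bb_step j).1
    omega
  have h5 : 3 * (bb j : ℝ) ≤ 2 * bb (j + 1) + 1 := by exact_mod_cast h4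
  have h6 : (1000 : ℝ) ≤ bb j := by
    have : 1000 ≤ bb j := le_trans (by norm_num) (bb_ge_pow j)
    exact_mod_cast this
  have h7 : (0 : ℝ) ≤ W m j 1 := Nat.cast_nonneg _
  norm_num at h3
  generalize Real.log (XT T (bb j)) = x at *
  generalize Real.log (XT T (bb (j + 1))) = y at *
  generalize (bb j : ℝ) = u at *
  generalize (bb (j + 1) : ℝ) = v at *
  generalize (W m j 1 : ℝ) = t at *
  norm_num at h2 ⊢
  linarith

/-- positivity of the logarithms of the borders -/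
theorem log_XT_bb_pos (h : TB m T) (j : ℕ) : 0 < Real.log (XT T (bb j)) := by
  have h2 := le_log_XT h (bb j)
  have h6 : (0 : ℝ) < bb j := by
    have : 0 < bb j := lt_of_lt_of_le (by norm_num) (bb_ge_pow j)
    exact_mod_cast this
  exact lt_of_lt_of_le (by positivity) h2

/-! ## the inner part `Lp * A` -/

/-- the inner part `L * (10^(6 W) / L + 1)` -/
theorem TB_of (L : ℕ → ℕ) (hL : ∀ j, 0 < L j) (hL2 : ∀ j, L j ≤ (10 ^ 6) ^ (W m j 1)) :
    TB m (fun j => L j * ((10 ^ 6) ^ (W m j 1) / L j + 1)) where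
  lo j := by
    have h1 := Nat.div_add_mod ((10 ^ 6) ^ (W m j 1)) (L j)
    have h2 := Nat.mod_lt ((10 ^ 6) ^ (W m j 1)) (hL j)
    simp only [mul_add, mul_one]
    omega
  hi j := by
    have h1 := Nat.mul_div_le ((10 ^ 6) ^ (W m j 1)) (L j)
    have h2 := hL2 j
    simp only [mul_add, mul_one]
    omega

end Pool.Agent.Helper27.T5
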