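import Pool.Agent.Helper27.T5.Range
import Pool.Agent.Helper5.T5.Pair

/-!
# T5a: the range block
-/

set_option autoImplicit false

namespace Pool.Agent.Helper27.T5

open Pool.Agent.Helper11.T5 Pool.Agent.Helper5.T5

/-- **the range block of T5a** -/
theorem rangeStmt (k : ℕ) : RangeStmt k := by
  obtain ⟨l0, h⟩ := exists_AA_range (k + 2) k le_rfl
  exact ⟨l0, fun l hl hu w _ a ha => h l hl hu w a ha⟩

end Pool.Agent.Helper27.T5
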