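import Pool.Agent.Helper11.T5.Defs

/-!
# T5a: the elements of the state `l` lie in `[XA l, XA (l + 1))`; inputs of the final wrapper
-/

set_option autoImplicit false

namespace Pool.Agent.Helper27.T5

open Finset Pool.Agent.Helper27.T4 Pool.Agent.Helper11.T5
open Pool.Agent.Helper5.ET (bb era own cnt av Nj pr pr_prime pr_inj)
open Pool.Agent.Helper22.HW Pool.Agent.Helper30.T5 Pool.Agent.Helper57.T5
open Pool.Agent.Helper39.T5 Pool.Agent.Helper50.T5

/-- the codes of the main level -/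
theorem c1_lt (m l : ℕ) (w : Key → ℕ) (x : Fin 3 → ℕ) : c1 m l w x < FF m l 0 :=
  cv_lt pr_prime pr_inj _ _

theorem FF_pos (m l t : ℕ) : 0 < FF m l t := Nj_pos1 _

theorem LL_pos (m j t : ℕ) : 0 < LL (QQ m j) t := by
  rw [LL_QQ]
  exact Lp_pos _ _ _

/-- the codes of the static levels -/
theorem cs_lt (m l t : ℕ) (w : Key → ℕ) (y : Fin 3 → ℕ) :
    cs m l t w y < FF m l (t + 1) * LL (QQ m (era l)) (t + 1) := by
  have h := fc_lt (hp := ps_prime t) (hinj := ps_inj t)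
    (FF m l (t + 1) * LL (QQ m (era l)) t) (Nat.mul_pos (FF_pos _ _ _) (LL_pos _ _ _))
    (es m (era l) t) (fun i => Lg (ps t i) ((Ss m l t).e i) (y i) + (Ss m l t).rho w i y)
  rw [LL_succ, QQ_eq_NN, ← mul_assoc]
  exact h

theorem dvd_cs (m l t : ℕ) (w : Key → ℕ) (y : Fin 3 → ℕ) :
    FF m l (t + 1) * LL (QQ m (era l)) t ∣ cs m l t w y := dvd_mul_right _ _

theorem eight_le_rt {m j : ℕ} (hb : 10 * m ≤ la j) (hm : 0 < m) : 8 ≤ rt m j :=
  le_trans (by norm_num) (rt_ge hb hm)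

/-- the ranges of the codes at least double -/
theorem exists_double (m k : ℕ) (hk : k + 2 ≤ m) : ∃ j0 : ℕ, ∀ l, used m l → j0 ≤ era l →
    10 * m ≤ la (era l) ∧ ∀ t < k,
    2 * (FF m l t * LL (QQ m (era l)) t) ≤ FF m l (t + 1) * LL (QQ m (era l)) (t + 1) := by
  obtain ⟨j0, h0⟩ := exists_pr_pow_le_Qf m k hk
  obtain ⟨j1, h1⟩ := exists_large m
  refine ⟨max j0 j1, fun l hu hj => ?_⟩
  have hj0 := le_trans (le_max_left _ _) hj
  have hb := h1 (era l) (le_trans (le_max_right _ _) hj)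
  refine ⟨hb, fun t ht => ?_⟩
  set j := era l with hjdef
  have e1 := era_ef (i := t + 1) hu hb (by omega) (by omega)
  have e2 := era_ef (i := t + 2) hu hb (by omega) (by omega)
  have hlt := ef_lt (l := l) hb (show t + 1 < t + 2 by omega) (show t + 2 < m by omega)
  have hN : Nj (ef m (t + 1) l) = Nj (ef m (t + 2) l) * pr (fam j) ^
      (ef m (t + 1) l - ef m (t + 2) l) := by
    have := Nj_era hlt.le (by rw [e1, e2])
    rw [this, e1]
  set d := ef m (t + 1) l - ef m (t + 2) l with hd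
  have hd2 : 64 * d ≤ W m j (t + 1) := by
    have a1 := ef_sub_le (l := l) hb (show t + 1 < m by omega)
    have a2 := lt_ef (l := l) hb (show t + 2 < m by omega)
    rw [← hjdef] at a1
    omega
  have hdg := eight_mul_dg (m := m) (j := j) (i := t + 2) (by omega)
    (eight_le_rt hb (by omega)) 0
  have hg0 : gw 0 = 3 := by simp [gw]
  rw [hg0, show t + 2 - 1 = t + 1 by omega] at hdg
  have hW := W_succ (m := m) (j := j) (show t + 1 < m by omega)
  have hrt := rt_ge hb (show 0 < m by omega)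
  have hW2 : 2 ^ 10 * W m j (t + 2) ≤ W m j (t + 1) := by
    rw [hW]
    exact Nat.mul_le_mul_right _ hrt
  have hW3 := W_ge hb (show t + 1 < m by omega)
  have hq := h0 j hj0 (t + 2) (by omega) (by omega) 0 (fam j) (d + 1) (by omega)
  have hQ : Qf m j (t + 2) 0 ≤ QQ m j t := by
    unfold QQ Qs
    rw [Fin.prod_univ_three]
    have b1 := Qf_pos m j (t + 2) 1
    have b2 := Qf_pos m j (t + 2) 2
    calc Qf m j (t + 2) 0 = Qf m j (t + 2) 0 * 1 * 1 := by ring
      _ ≤ _ := by gcongr <;> omega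
  have h2 : 2 * pr (fam j) ^ d ≤ QQ m j t := by
    refine le_trans ?_ (hq.trans hQ)
    rw [pow_succ, mul_comm]
    have := pr_ge (fam j)
    exact Nat.mul_le_mul_left _ (by omega)
  have hF : FF m l t = FF m l (t + 1) * pr (fam j) ^ d := hN
  rw [hF, LL_succ]
  calc 2 * (FF m l (t + 1) * pr (fam j) ^ d * LL (QQ m j) t)
      = FF m l (t + 1) * (2 * pr (fam j) ^ d) * LL (QQ m j) t := by ring
    _ ≤ FF m l (t + 1) * QQ m j t * LL (QQ m j) t := by gcongr
    _ = _ := by ring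

/-- the sum of all codes -/
theorem codes_lt {m k l : ℕ} (hd : ∀ t < k,
    2 * (FF m l t * LL (QQ m (era l)) t) ≤ FF m l (t + 1) * LL (QQ m (era l)) (t + 1))
    (w : Key → ℕ) (x : Fin 3 → ℕ) (y : Fin k → Fin 3 → ℕ) :
    c1 m l w x + ∑ t : Fin k, cs m l t w (y t) < 2 * (FF m l k * LA m k (era l)) := by
  have h0 : c1 m l w x < FF m l 0 * LL (QQ m (era l)) 0 := by
    rw [LL_zero, mul_one]
    exact c1_lt m l w x
  exact tower_size (fun t => FF m l t * LL (QQ m (era l)) t) _ h0 k hd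
    (fun t => cs m l t w (y t)) (fun t => cs_lt m l t w _)

/-- **the scales**: elements of the state `l` -/
theorem AA_range {m k l : ℕ} (hd : ∀ t < k,
    2 * (FF m l t * LL (QQ m (era l)) t) ≤ FF m l (t + 1) * LL (QQ m (era l)) (t + 1))
    (w : Key → ℕ) {a : ℕ} (ha : a ∈ AA m k l w) : XA m k l ≤ a ∧ a < XA m k (l + 1) := by
  unfold AA scaleSet at ha
  rw [mem_image] at ha
  obtain ⟨⟨⟨x, y⟩, u⟩, hq, rfl⟩ := ha
  simp only [mem_product, mem_image] at hq
  obtain ⟨_, v, hv, rfl⟩ := hq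
  unfold Vw VW at hv
  rw [mem_filter, mem_Ico] at hv
  obtain ⟨⟨hv1, hv2⟩, _⟩ := hv
  have hc := codes_lt hd w x y
  have hXA : XA m k l = Nj l * LA m k (era l) * vlo m k (era l) := by
    unfold XA XT TA
    ring
  constructor
  · rw [hXA]
    have : Nj l * LA m k (era l) * vlo m k (era l) ≤ Nj l * LA m k (era l) * v :=
      Nat.mul_le_mul_left _ hv1
    simp only
    omega
  · have hM : 0 < Nj l * LA m k (era l) := Nat.mul_pos (Nj_pos1 l) (LA_pos _ _ _)
    have h1 : (v + 1) * (Nj l * LA m k (era l)) ≤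
        XA m k (l + 1) - 2 * (FF m l k * LA m k (era l)) := by
      refine le_trans (Nat.mul_le_mul_right _ hv2) ?_
      unfold vhi
      exact Nat.div_mul_le_self _ _
    have h2 : (v + 1) * (Nj l * LA m k (era l)) =
        Nj l * LA m k (era l) * v + Nj l * LA m k (era l) := by ring
    simp only
    omega

/-! ## inputs of the final wrapper -/

theorem sum_dg_le (m j i : ℕ) : ∑ f : Fin 3, dg m j i f ≤ W m j (i - 1) - W m j i := by
  rw [Fin.sum_univ_three]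
  simp only [dg, gw, Matrix.cons_val_zero, Matrix.cons_val_one, Matrix.cons_val]
  omega

theorem Qs_le_all (m j i : ℕ) : Qs m j i ≤ (10 ^ 6) ^ (W m j (i - 1) - W m j i) := by
  refine le_trans ?_ (Nat.pow_le_pow_right (by norm_num) (sum_dg_le m j i))
  rw [← Finset.prod_pow_eq_pow_sum]
  exact Finset.prod_le_prod' (fun f _ => Qf_le m j i f)

theorem Lp_le_all (m j : ℕ) {s : ℕ} (hs1 : 1 ≤ s) :
    Lp m j s ≤ (10 ^ 6) ^ (W m j 1 - W m j s) := by
  induction s, hs1 using Nat.le_induction with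
  | base => simp [Lp_one]
  | succ s h1 ih =>
    rw [Lp_succ h1]
    have e2 := Qs_le_all m j (s + 1)
    have e3 : W m j (s + 1) ≤ W m j s := W_anti (by omega)
    have e4 : W m j s ≤ W m j 1 := W_anti h1
    rw [Nat.add_sub_cancel] at e2
    calc Lp m j s * Qs m j (s + 1)
        ≤ (10 ^ 6) ^ (W m j 1 - W m j s) * (10 ^ 6) ^ (W m j s - W m j (s + 1)) :=
          Nat.mul_le_mul ih e2
      _ = (10 ^ 6) ^ (W m j 1 - W m j (s + 1)) := by
          rw [← pow_add]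
          congr 1
          omega

theorem LA_le (m k j : ℕ) : LA m k j ≤ (10 ^ 6) ^ (W m j 1) := by
  unfold LA
  rw [LL_QQ]
  refine (Lp_le_all m j (by omega)).trans ?_
  exact Nat.pow_le_pow_right (by norm_num) (Nat.sub_le _ _)

/-- the factor `TA` -/
theorem TB_TA (m k : ℕ) : TB m (TA m k) :=
  TB_of (LA m k) (LA_pos m k) (LA_le m k)

/-- the chain of the scales: twice -/
theorem XA_succ (m k : ℕ) (hm : 0 < m) (l : ℕ) : 2 * XA m k l ≤ XA m k (l + 1) :=
  XT_succ (TB_TA m k) hm l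

theorem XA_pos (m k l : ℕ) : 0 < XA m k l := XT_pos (TB_TA m k) l

/-- the borders -/
noncomputable def bA (m k j1 j : ℕ) : ℝ := Real.log (XA m k (bb (j1 + j)))

theorem XA_H1 (m k : ℕ) (hm : 1 < m) {c' : ℝ} (hc : c' ≤ 1 / m) :
    ∀ K1 : ℕ, ∃ K2 : ℕ, ∀ K, K2 ≤ K → ∃ K', K1 ≤ K' ∧ K' ≤ K ∧ used m K' ∧
      Real.log (XA m k (K + 2)) - Real.log (XA m k K') ≤ 30000 * (K : ℝ) ^ (1 - c') :=
  sch_H1 (TB_TA m k) hm hc

theorem XA_H2 (m k : ℕ) (hm : 1 < m) {c' : ℝ} (hc : c' ≤ 1 / m) (j1 : ℕ) :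
    ∃ K2 : ℕ, ∀ K, K2 ≤ K → (used m K ∧ XA m k (K + 2) ≤ 1000037 ^ 2 * XA m k K) ∨
      ∃ j, |Real.log (XA m k (K + 2)) - bA m k j1 j| ≤ 30000 * (K : ℝ) ^ (1 - c') ∧
        |Real.log (XA m k K) - bA m k j1 j| ≤ 30000 * (K : ℝ) ^ (1 - c') :=
  sch_H2 (TB_TA m k) hm hc j1

theorem bA_growth (m k : ℕ) (hm : 1 < m) :
    ∃ j1, ∀ j, 0 < bA m k j1 j ∧ 1.4 * bA m k j1 j ≤ bA m k j1 (j + 1) := by
  obtain ⟨j1, h⟩ := sch_14 (TB_TA m k) hm
  refine ⟨j1, fun j => ⟨log_XT_bb_pos (TB_TA m k) _, ?_⟩⟩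
  exact h (j1 + j) (by omega)

/-- **range of the states**, in the form of the final wrapper -/
theorem exists_AA_range (m k : ℕ) (hk : k + 2 ≤ m) : ∃ l0 : ℕ, ∀ l, l0 ≤ l → used m l →
    ∀ (w : Key → ℕ) (a : ℕ), a ∈ AA m k l w → XA m k l ≤ a ∧ a < XA m k (l + 1) := by
  obtain ⟨j0, h⟩ := exists_double m k hk
  refine ⟨bb j0, fun l hl hu w a ha => ?_⟩
  refine AA_range (h l hu ?_).2 w ha
  rw [← era_bb j0]
  exact era_mono hl

end Pool.Agent.Helper27.T5
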