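import Pool.Agent.Helper27.T5.Range

/-!
# T5: the chain of scales with a parameter which grows with the era

`mu j` is the number of windows in the era `j`.
-/

set_option autoImplicit false

namespace Pool.Agent.Helper27.T5

open Finset Pool.Agent.Helper5.ET Pool.Agent.Helper27.T4 Pool.Agent.Helper37.T5

/-- a slowly growing parameter -/
structure Slow (mu : ℕ → ℕ) : Prop where
  mono : Monotone mu
  one_lt : ∀ j, 1 < mu j
  slow : ∀ R, ∃ j0, ∀ j ≥ j0, R * mu j ≤ la j

/-- used states, the parameter depends on the era -/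
def usedm (mu : ℕ → ℕ) (l : ℕ) : Prop := used (mu (era l)) l

/-- bounds of the inner part -/
structure TBm (mu T : ℕ → ℕ) : Prop where
  lo : ∀ j, (10 ^ 6) ^ (W (mu j) j 1) ≤ T j
  hi : ∀ j, T j ≤ 2 * (10 ^ 6) ^ (W (mu j) j 1)

variable {mu T : ℕ → ℕ}

theorem TBm.pos (h : TBm mu T) (j : ℕ) : 0 < T j := lt_of_lt_of_le (by positivity) (h.lo j)

theorem W_mu_mono (hs : Slow mu) {i j : ℕ} (h : i ≤ j) : W (mu i) i 1 ≤ W (mu j) j 1 := by
  refine (W_mono_one (m := mu i) (by have := hs.one_lt i; omega) h).trans ?_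
  unfold W
  refine Nat.pow_le_pow_right (by norm_num) ?_
  have h1 : la j / mu j ≤ la j / mu i :=
    Nat.div_le_div_left (hs.mono h) (by have := hs.one_lt i; omega)
  omega

theorem TBm.le (h : TBm mu T) (hs : Slow mu) {i j : ℕ} (hij : i ≤ j) : T i ≤ 2 * T j := by
  have h1 : (10 ^ 6) ^ (W (mu i) i 1) ≤ (10 ^ 6) ^ (W (mu j) j 1) :=
    Nat.pow_le_pow_right (by norm_num) (W_mu_mono hs hij)
  have h2 := h.hi i
  have h3 := h.lo j
  omega

theorem XTm_pos (h : TBm mu T) (l : ℕ) : 0 < XT T l := Nat.mul_pos (Nj_pos1 l) (h.pos _)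

/-- the chain grows by a factor at least 2 in every step -/
theorem XTm_succ (h : TBm mu T) (hs : Slow mu) (l : ℕ) : 2 * XT T l ≤ XT T (l + 1) := by
  have h1 : Nj l * 1000003 ≤ Nj (l + 1) := Pool.Agent.Helper50.ET.Nj_succ_ge l
  have h2 := h.le hs (era_mono (Nat.le_succ l))
  unfold XT
  calc 2 * (Nj l * T (era l)) ≤ 2 * (Nj l * (2 * T (era (l + 1)))) := by gcongr
    _ = (Nj l * 4) * T (era (l + 1)) := by ring
    _ ≤ (Nj l * 1000003) * T (era (l + 1)) := by gcongr; norm_num
    _ ≤ Nj (l + 1) * T (era (l + 1)) := by gcongr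

theorem XTm_mono (h : TBm mu T) (hs : Slow mu) : Monotone (XT T) := by
  apply monotone_nat_of_le_succ
  intro l
  have := XTm_succ h hs l
  omega

/-- the window of the first level is small compared with the border -/
theorem W_mu_small (hs : Slow mu) (R : ℕ) :
    ∃ j0, ∀ j ≥ j0, 10 * mu j ≤ la j ∧ 2 ^ R * W (mu j) j 1 ≤ bb j := by
  obtain ⟨j1, h1⟩ := hs.slow 10
  obtain ⟨j2, h2⟩ := hs.slow R
  refine ⟨max j1 j2, fun j hj => ⟨h1 j (le_trans (le_max_left _ _) hj), ?_⟩⟩
  have h3 := h2 j (le_trans (le_max_right _ _) hj)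
  have h4 : R ≤ la j / mu j := (Nat.le_div_iff_mul_le (by have := hs.one_lt j; omega)).2 h3
  have h5 := W_zero_le (mu j) j
  rw [W_succ (show 0 < mu j by have := hs.one_lt j; omega)] at h5
  refine le_trans (Nat.mul_le_mul_right _ ?_) h5
  unfold rt
  exact Nat.pow_le_pow_right (by norm_num) h4

theorem log_XTm_sub (h : TBm mu T) {y z : ℕ} (hyz : y ≤ z) :
    Real.log (XT T z) - Real.log (XT T y) ≤ 14 * (z - y) + 14 * W (mu (era z)) (era z) 1 + 1 := by
  have h1 : Nj z ≤ Nj y * 1000037 ^ (z - y) := Pool.Agent.Helper30.ET.Nj_upper hyz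
  have hy : (0 : ℝ) < XT T y := by exact_mod_cast XTm_pos h y
  have hz : (0 : ℝ) < XT T z := by exact_mod_cast XTm_pos h z
  have h2 : XT T z ≤ XT T y * (1000037 ^ (z - y) * (2 * (10 ^ 6) ^ (W (mu (era z)) (era z) 1))) := by
    unfold XT
    have h3 := h.hi (era z)
    have h4 := h.pos (era y)
    calc Nj z * T (era z) ≤
          (Nj y * 1000037 ^ (z - y)) * (2 * (10 ^ 6) ^ (W (mu (era z)) (era z) 1)) := by
          gcongr
      _ = (Nj y * 1) * (1000037 ^ (z - y) * (2 * (10 ^ 6) ^ (W (mu (era z)) (era z) 1))) := by ring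
      _ ≤ (Nj y * T (era y)) *
          (1000037 ^ (z - y) * (2 * (10 ^ 6) ^ (W (mu (era z)) (era z) 1))) := by
          gcongr
          exact h4
  have h5 : (XT T z : ℝ) ≤
      XT T y * (1000037 ^ (z - y) * (2 * (10 ^ 6) ^ (W (mu (era z)) (era z) 1))) := by
    exact_mod_cast h2
  have h6 := Real.log_le_log hz h5
  rw [Real.log_mul (by positivity) (by positivity), Real.log_mul (by positivity) (by positivity),
    Real.log_mul (by positivity) (by positivity), Real.log_pow, Real.log_pow] at h6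
  have h7 : ((z - y : ℕ) : ℝ) = (z : ℝ) - y := by rw [Nat.cast_sub hyz]
  rw [h7] at h6
  have h8 : (0 : ℝ) ≤ (z : ℝ) - y := by
    have : (y : ℝ) ≤ z := by exact_mod_cast hyz
    linarith
  have h9 := mul_le_mul_of_nonneg_left log_pr h8
  have h10 := mul_le_mul_of_nonneg_left log_base_le
    (show (0 : ℝ) ≤ W (mu (era z)) (era z) 1 by positivity)
  have h11 : Real.log 2 ≤ 1 := by
    have := Real.log_two_lt_d9
    linarith
  linarith

theorem log_XTm_mono (h : TBm mu T) (hs : Slow mu) {y z : ℕ} (hyz : y ≤ z) :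
    Real.log (XT T y) ≤ Real.log (XT T z) := by
  apply Real.log_le_log
  · exact_mod_cast XTm_pos h y
  · exact_mod_cast XTm_mono h hs hyz

theorem abs_log_XTm (h : TBm mu T) (hs : Slow mu) {y z : ℕ} :
    |Real.log (XT T z) - Real.log (XT T y)| ≤
      14 * |(z : ℝ) - y| + 14 * W (mu (era (max y z))) (era (max y z)) 1 + 1 := by
  rcases le_total y z with h1 | h1
  · have h2 := log_XTm_sub h h1
    have h3 := log_XTm_mono h hs h1
    have h4 : (y : ℝ) ≤ z := by exact_mod_cast h1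
    rw [max_eq_right h1, abs_of_nonneg (by linarith), abs_of_nonneg (by linarith)]
    exact h2
  · have h2 := log_XTm_sub h h1
    have h3 := log_XTm_mono h hs h1
    have h4 : (z : ℝ) ≤ y := by exact_mod_cast h1
    rw [max_eq_left h1, abs_of_nonpos (by linarith), abs_of_nonpos (by linarith)]
    linarith

theorem bb_succ_le_two (j : ℕ) : bb (j + 1) ≤ 2 * bb j := by
  have := bb_succ_le j
  omega

/-- a used state below every position -/
theorem exists_usedm (hs : Slow mu) {j0 : ℕ} (hj0 : ∀ j ≥ j0, 10 * mu j ≤ la j) {y : ℕ}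
    (hy : bb (j0 + 1) ≤ y) :
    ∃ l ≤ y, usedm mu l ∧ y ≤ l + 402 * W (mu (era y)) (era y) 1 := by
  have hy0 : bb 0 ≤ y := (bb_strictMono.monotone (Nat.zero_le _)).trans hy
  obtain ⟨h1, h2⟩ := era_spec y hy0
  have hj : j0 + 1 ≤ era y := by
    by_contra hc
    have := bb_strictMono.monotone (show era y + 1 ≤ j0 + 1 by omega)
    omega
  set j := era y with hjdef
  have hb := hj0 j (by omega)
  have hm := hs.one_lt j
  have hlen := era_len hb (show 0 < mu j by omega)
  have hW := W_pos (mu j) j 1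
  rcases Nat.lt_or_ge y (bb j + 200 * W (mu j) j 1) with hA | hA
  · obtain ⟨i, hi⟩ : ∃ i, j = i + 1 := ⟨j - 1, by omega⟩
    have hb' := hj0 i (by omega)
    have hm' := hs.one_lt i
    have hlen' := era_len hb' (show 0 < mu i by omega)
    have hWW := W_mu_mono hs (show i ≤ j by omega)
    rw [← hi] at hlen'
    obtain ⟨hu, he⟩ := used_of (l := bb j - 201 * W (mu i) i 1) hb' hm' (by omega)
      (by rw [← hi]; omega)
    refine ⟨bb j - 201 * W (mu i) i 1, by omega, ?_, by omega⟩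
    unfold usedm
    rw [he]
    exact hu
  · rcases Nat.lt_or_ge (bb (j + 1)) (y + 201 * W (mu j) j 1) with hB | hB
    · obtain ⟨hu, he⟩ := used_of (l := bb (j + 1) - 201 * W (mu j) j 1) hb hm (by omega) (by omega)
      refine ⟨bb (j + 1) - 201 * W (mu j) j 1, by omega, ?_, by omega⟩
      unfold usedm
      rw [he]
      exact hu
    · obtain ⟨hu, he⟩ := used_of (l := y) hb hm (by omega) (by omega)
      refine ⟨y, le_rfl, ?_, by omega⟩
      unfold usedm
      rw [he]
      exact hu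

/-- an unused position of a large era is near a border -/
theorem near_borderm (hs : Slow mu) {y j0 : ℕ} (hj0 : ∀ j ≥ j0, 10 * mu j ≤ la j)
    (hy : bb (j0 + 1) ≤ y) (hu : ¬ usedm mu y) :
    ∃ i, j0 + 1 ≤ i ∧ |(y : ℝ) - bb i| ≤ 201 * W (mu (era y)) (era y) 1 ∧
      (i = era y ∨ i = era y + 1) := by
  have hy0 : bb 0 ≤ y := (bb_strictMono.monotone (Nat.zero_le _)).trans hy
  obtain ⟨h1, h2⟩ := era_spec y hy0
  have hj : j0 + 1 ≤ era y := by
    by_contra hc
    have := bb_strictMono.monotone (show era y + 1 ≤ j0 + 1 by omega)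
    omega
  have hb := hj0 (era y) (by omega)
  have hm := hs.one_lt (era y)
  rcases Nat.lt_or_ge y (bb (era y) + 200 * W (mu (era y)) (era y) 1) with hA | hA
  · refine ⟨era y, hj, ?_, Or.inl rfl⟩
    have a1 : (bb (era y) : ℝ) ≤ y := by exact_mod_cast h1
    have a2 : (y : ℝ) < bb (era y) + 200 * W (mu (era y)) (era y) 1 := by exact_mod_cast hA
    have a3 : (0 : ℝ) ≤ W (mu (era y)) (era y) 1 := Nat.cast_nonneg _
    rw [abs_of_nonneg (by linarith)]
    linarith
  · have hB : bb (era y + 1) < y + 201 * W (mu (era y)) (era y) 1 := by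
      by_contra hc
      exact hu (used_of_mem hb hm hA (by omega))
    refine ⟨era y + 1, by omega, ?_, Or.inr rfl⟩
    have a1 : (y : ℝ) < bb (era y + 1) := by exact_mod_cast h2
    have a2 : (bb (era y + 1) : ℝ) < y + 201 * W (mu (era y)) (era y) 1 := by exact_mod_cast hB
    rw [abs_of_nonpos (by linarith)]
    linarith

theorem XTm_two (hs : Slow mu) (T : ℕ → ℕ) {l : ℕ} (h : usedm mu l)
    (hb : 10 * mu (era l) ≤ la (era l)) : XT T (l + 2) ≤ 1000037 ^ 2 * XT T l :=
  XT_two T h hb (hs.one_lt _)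

/-- (H1) with an arbitrarily small relative error -/
theorem schm_H1 (h : TBm mu T) (hs : Slow mu) {d : ℝ} (hd : 0 < d) :
    ∀ K1 : ℕ, ∃ K2 : ℕ, ∀ K, K2 ≤ K → ∃ K', K1 ≤ K' ∧ K' ≤ K ∧ usedm mu K' ∧
      Real.log (XT T (K + 2)) - Real.log (XT T K') ≤ d * K := by
  intro K1
  obtain ⟨R, hR⟩ := pow_unbounded_of_one_lt (20000 / d) (show (1 : ℝ) < 2 by norm_num)
  obtain ⟨j0, hj0⟩ := W_mu_small hs (R + 10)
  refine ⟨max (bb (j0 + 1)) (2 * K1), fun K hK => ?_⟩
  have hK1 := le_trans (le_max_left _ _) hK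
  have hK2 := le_trans (le_max_right _ _) hK
  have hb0 : bb 0 ≤ K := (bb_strictMono.monotone (Nat.zero_le _)).trans hK1
  obtain ⟨l, hl, hu, hd'⟩ := exists_usedm hs (fun j hj => (hj0 j hj).1) hK1
  have hbe : bb (era K) ≤ K := (era_spec K hb0).1
  have hbe2 : bb (era (K + 2)) ≤ K + 2 := (era_spec (K + 2) (by omega)).1
  have hjK : j0 ≤ era K := by
    by_contra hc
    have h2 := (era_spec K hb0).2
    have := bb_strictMono.monotone (show era K + 1 ≤ j0 + 1 by omega)
    omega
  have hmono := era_mono (show K ≤ K + 2 by omega)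
  have hW1 := (hj0 (era K) hjK).2
  have hW2 := (hj0 (era (K + 2)) (by omega)).2
  have hWW := W_mu_mono hs hmono
  have hWp := W_pos (mu (era (K + 2))) (era (K + 2)) 1
  have hK64 : 2 ^ 64 ≤ K := hb0
  have h1024 : 2 ^ 10 * W (mu (era K)) (era K) 1 ≤ K := by
    refine le_trans (Nat.mul_le_mul_right _ ?_) (hW1.trans hbe)
    exact Nat.pow_le_pow_right (by norm_num) (by omega)
  refine ⟨l, by omega, hl, hu, ?_⟩
  have h1 := log_XTm_sub h (show l ≤ K + 2 by omega)
  have h4 : (K : ℝ) ≤ l + 402 * W (mu (era K)) (era K) 1 := by exact_mod_cast hd'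
  have h5 : (W (mu (era K)) (era K) 1 : ℝ) ≤ W (mu (era (K + 2))) (era (K + 2)) 1 := by
    exact_mod_cast hWW
  have h6 : (1 : ℝ) ≤ W (mu (era (K + 2))) (era (K + 2)) 1 := by exact_mod_cast hWp
  have h7 : (2 : ℝ) ^ (R + 10) * W (mu (era (K + 2))) (era (K + 2)) 1 ≤ 2 * K := by
    have : 2 ^ (R + 10) * W (mu (era (K + 2))) (era (K + 2)) 1 ≤ 2 * K := by omega
    exact_mod_cast this
  push_cast at h1
  set w : ℝ := (W (mu (era (K + 2))) (era (K + 2)) 1 : ℝ) with hw
  have h8 : Real.log (XT T (K + 2)) - Real.log (XT T l) ≤ 6000 * w := by linarith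
  refine h8.trans ?_
  have h9 : (20000 : ℝ) < d * 2 ^ R := by
    rw [div_lt_iff₀ hd] at hR
    linarith
  have h10 : (2 : ℝ) ^ (R + 10) * w = 1024 * (2 ^ R * w) := by rw [pow_add]; ring
  rw [h10] at h7
  have h11 : 20000 * w ≤ d * 2 ^ R * w := mul_le_mul_of_nonneg_right h9.le (by linarith)
  have h12 : d * (1024 * (2 ^ R * w)) ≤ d * (2 * K) := mul_le_mul_of_nonneg_left h7 hd.le
  nlinarith

/-- (H2) with an arbitrarily small relative error, borders numbered from `j1` on -/
theorem schm_H2 (h : TBm mu T) (hs : Slow mu) (j1 : ℕ) {d : ℝ} (hd : 0 < d) :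
    ∃ K2 : ℕ, ∀ K, K2 ≤ K → (usedm mu K ∧ XT T (K + 2) ≤ 1000037 ^ 2 * XT T K) ∨
      ∃ j, |Real.log (XT T (K + 2)) - Real.log (XT T (bb (j1 + j)))| ≤ d * K ∧
        |Real.log (XT T K) - Real.log (XT T (bb (j1 + j)))| ≤ d * K := by
  obtain ⟨R, hR⟩ := pow_unbounded_of_one_lt (20000 / d) (show (1 : ℝ) < 2 by norm_num)
  obtain ⟨j0', hj0'⟩ := W_mu_small hs (R + 10)
  set j0 := max j0' j1 with hj0def
  have hj0 : ∀ j ≥ j0, 10 * mu j ≤ la j ∧ 2 ^ (R + 10) * W (mu j) j 1 ≤ bb j :=
    fun j hj => hj0' j (le_trans (le_max_left _ _) hj)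
  refine ⟨bb (j0 + 1), fun K hK => ?_⟩
  have hb0 : bb 0 ≤ K := (bb_strictMono.monotone (Nat.zero_le _)).trans hK
  have hje : j0 + 1 ≤ era K := by
    have h2 := (era_spec K hb0).2
    by_contra hc
    have := bb_strictMono.monotone (show era K + 1 ≤ j0 + 1 by omega)
    omega
  by_cases hu : usedm mu K
  · exact Or.inl ⟨hu, XTm_two hs T hu (hj0 _ (by omega)).1⟩
  · right
    obtain ⟨i, hi0, hi, hi2⟩ := near_borderm hs (fun j hj => (hj0 j hj).1) hK hu
    have hij : j1 ≤ i := by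
      have : j1 ≤ j0 := le_max_right _ _
      omega
    refine ⟨i - j1, ?_⟩
    rw [show j1 + (i - j1) = i by omega]
    have hK64 : 2 ^ 64 ≤ K := hb0
    -- the era of the larger point is at most `era (K + 2) + 1`
    have hbe2 : bb (era (K + 2)) ≤ K + 2 := (era_spec (K + 2) (by omega)).1
    have hb3 := bb_succ_le_two (era (K + 2))
    have hmono := era_mono (show K ≤ K + 2 by omega)
    have hW3 := (hj0 (era (K + 2) + 1) (by omega)).2
    obtain ⟨v, hv⟩ : ∃ v : ℕ, v = W (mu (era (K + 2) + 1)) (era (K + 2) + 1) 1 := ⟨_, rfl⟩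
    have hv1 : 1 ≤ v := by
      rw [hv]
      exact W_pos _ _ 1
    have hE : ∀ z, z ≤ K + 2 → W (mu (era (max (bb i) z))) (era (max (bb i) z)) 1 ≤ v := by
      intro z hz
      have b1 : era (max (bb i) z) ≤ era (K + 2) + 1 := by
        rcases le_total (bb i) z with b2 | b2
        · rw [max_eq_right b2]
          exact (era_mono hz).trans (Nat.le_succ _)
        · rw [max_eq_left b2, era_bb]
          rcases hi2 with b4 | b4 <;> omega
      rw [hv]
      exact W_mu_mono hs b1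
    have hWK : W (mu (era K)) (era K) 1 ≤ v := by
      rw [hv]
      exact W_mu_mono hs (show era K ≤ era (K + 2) + 1 by omega)
    have h7n : 2 ^ (R + 10) * v ≤ 2 * (K + 2) := by
      rw [hv]
      omega
    have h7 : (2 : ℝ) ^ (R + 10) * v ≤ 4 * K := by
      have h8 : (2 : ℝ) ^ (R + 10) * v ≤ 2 * (K + 2) := by exact_mod_cast h7n
      have h9 : (2 : ℝ) ≤ K := by
        have : 2 ≤ K := le_trans (by norm_num) hK64
        exact_mod_cast this
      linarith
    have hw1 : (1 : ℝ) ≤ v := by exact_mod_cast hv1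
    have hK2 : (W (mu (era (max (bb i) (K + 2)))) (era (max (bb i) (K + 2))) 1 : ℝ) ≤ v := by
      exact_mod_cast hE (K + 2) le_rfl
    have hK0 : (W (mu (era (max (bb i) K))) (era (max (bb i) K)) 1 : ℝ) ≤ v := by
      exact_mod_cast hE K (by omega)
    have hWK' : (W (mu (era K)) (era K) 1 : ℝ) ≤ v := by exact_mod_cast hWK
    have a1 := abs_log_XTm h hs (y := bb i) (z := K + 2)
    have a2 := abs_log_XTm h hs (y := bb i) (z := K)
    have a3 : |((K + 2 : ℕ) : ℝ) - bb i| ≤ |(K : ℝ) - bb i| + 2 := by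
      push_cast
      have : (K : ℝ) + 2 - bb i = ((K : ℝ) - bb i) + 2 := by ring
      rw [this]
      refine (abs_add_le _ _).trans ?_
      norm_num
    have h9 : (20000 : ℝ) < d * 2 ^ R := by
      rw [div_lt_iff₀ hd] at hR
      linarith
    have h10 : (2 : ℝ) ^ (R + 10) * v = 1024 * (2 ^ R * v) := by rw [pow_add]; ring
    rw [h10] at h7
    have h11 : 20000 * (v : ℝ) ≤ d * 2 ^ R * v := mul_le_mul_of_nonneg_right h9.le (by linarith)
    have h12 : d * (1024 * (2 ^ R * (v : ℝ))) ≤ d * (4 * K) := mul_le_mul_of_nonneg_left h7 hd.le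
    have h13 : 5000 * (v : ℝ) ≤ d * K := by
      have e1 : d * (1024 * (2 ^ R * (v : ℝ))) = 1024 * (d * 2 ^ R * v) := by ring
      have e2 : d * (4 * (K : ℝ)) = 4 * (d * K) := by ring
      rw [e1, e2] at h12
      linarith
    clear h10 h11 h12 h7 h7n
    constructor
    · refine a1.trans ?_
      linarith
    · refine a2.trans ?_
      linarith

theorem log_XTm_le (h : TBm mu T) (z : ℕ) :
    Real.log (XT T z) ≤ 14 * z + 14 * W (mu (era z)) (era z) 1 + 1 := by
  have h1 : Nj z ≤ 1000037 ^ z := Pool.Agent.Helper30.ET.Nj_le_pow z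
  have hz : (0 : ℝ) < XT T z := by exact_mod_cast XTm_pos h z
  have h2 : XT T z ≤ 1000037 ^ z * (2 * (10 ^ 6) ^ (W (mu (era z)) (era z) 1)) :=
    Nat.mul_le_mul h1 (h.hi _)
  have h5 : (XT T z : ℝ) ≤ 1000037 ^ z * (2 * (10 ^ 6) ^ (W (mu (era z)) (era z) 1)) := by
    exact_mod_cast h2
  have h6 := Real.log_le_log hz h5
  rw [Real.log_mul (by positivity) (by positivity), Real.log_mul (by positivity) (by positivity),
    Real.log_pow, Real.log_pow] at h6
  have h9 := mul_le_mul_of_nonneg_left log_pr (show (0 : ℝ) ≤ z from Nat.cast_nonneg _)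
  have h10 := mul_le_mul_of_nonneg_left log_base_le
    (show (0 : ℝ) ≤ W (mu (era z)) (era z) 1 by positivity)
  have h11 : Real.log 2 ≤ 1 := by
    have := Real.log_two_lt_d9
    linarith
  linarith

theorem le_log_XTm (h : TBm mu T) (z : ℕ) : 13.7 * (z : ℝ) ≤ Real.log (XT T z) := by
  have h1 : 1000003 ^ z ≤ Nj z := by
    have := Pool.Agent.Helper30.ET.Nj_lower (Nat.zero_le z)
    rw [Pool.Agent.Helper30.ET.Nj_zero, one_mul, Nat.sub_zero] at this
    exact this
  have h2 : (10 ^ 6) ^ z ≤ XT T z := by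
    unfold XT
    calc (10 ^ 6) ^ z ≤ 1000003 ^ z := Nat.pow_le_pow_left (by norm_num) z
      _ ≤ Nj z * 1 := by omega
      _ ≤ Nj z * T (era z) := Nat.mul_le_mul_left _ (h.pos _)
  have h3 : ((10 ^ 6 : ℝ)) ^ z ≤ XT T z := by exact_mod_cast h2
  have h4 := Real.log_le_log (by positivity) h3
  rw [Real.log_pow] at h4
  have h5 := mul_le_mul_of_nonneg_left log_base_ge (show (0 : ℝ) ≤ z from Nat.cast_nonneg _)
  rw [mul_comm (13.7 : ℝ)]
  exact h5.trans h4

/-- the logarithms of the borders grow by the factor `1.4` -/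
theorem schm_14 (h : TBm mu T) (hs : Slow mu) :
    ∃ j1, ∀ j ≥ j1, 1.4 * Real.log (XT T (bb j)) ≤ Real.log (XT T (bb (j + 1))) := by
  obtain ⟨j0, hj0⟩ := W_mu_small hs 10
  refine ⟨j0, fun j hj => ?_⟩
  have h1 := log_XTm_le h (bb j)
  have h2 := le_log_XTm h (bb (j + 1))
  rw [era_bb] at h1
  have h3 : (2 ^ 10 : ℝ) * W (mu j) j 1 ≤ bb j := by
    exact_mod_cast (hj0 j hj).2
  have h4 : 3 * bb j ≤ 2 * bb (j + 1) + 1 := by
    have := (bb_step j).1
    omega
  have h5 : 3 * (bb j : ℝ) ≤ 2 * bb (j + 1) + 1 := by exact_mod_cast h4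
  have h6 : (1000 : ℝ) ≤ bb j := by
    have : 1000 ≤ bb j := le_trans (by norm_num) (bb_ge_pow j)
    exact_mod_cast this
  have h7 : (0 : ℝ) ≤ W (mu j) j 1 := Nat.cast_nonneg _
  norm_num at h3
  generalize Real.log (XT T (bb j)) = x at *
  generalize Real.log (XT T (bb (j + 1))) = y at *
  generalize (bb j : ℝ) = u at *
  generalize (bb (j + 1) : ℝ) = v at *
  generalize (W (mu j) j 1 : ℝ) = t at *
  norm_num at h2 ⊢
  linarith

/-- positivity of the logarithms of the borders -/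
theorem log_XTm_bb_pos (h : TBm mu T) (j : ℕ) : 0 < Real.log (XT T (bb j)) := by
  have h2 := le_log_XTm h (bb j)
  have h6 : (0 : ℝ) < bb j := by
    have : 0 < bb j := lt_of_lt_of_le (by norm_num) (bb_ge_pow j)
    exact_mod_cast this
  exact lt_of_lt_of_le (by positivity) h2

/-! ## the factor of the scales, with the parameter `mu j` -/

theorem TBm_TA (mu k : ℕ → ℕ) : TBm mu (fun j => Pool.Agent.Helper11.T5.TA (mu j) (k j) j) where
  lo j := (TB_TA (mu j) (k j)).lo j
  hi j := (TB_TA (mu j) (k j)).hi j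

/-! ## existence of the parameter -/

/-- for every sequence of thresholds there is a slow parameter which respects them and grows -/
theorem exists_slow (l0 : ℕ → ℕ) : ∃ mu : ℕ → ℕ, Slow mu ∧
    (∃ j1, ∀ j ≥ j1, l0 (mu j) ≤ bb j) ∧ ∀ M, ∃ j1, ∀ j ≥ j1, M ≤ mu j := by
  -- thresholds in terms of the era
  have hg : ∀ m, ∃ g, ∀ j ≥ g, l0 m ≤ bb j ∧ m * m ≤ la j := by
    intro m
    obtain ⟨j0, hj0⟩ := la_unbounded (m * m)
    refine ⟨max (l0 m) j0, fun j hj => ⟨?_, hj0 j (le_trans (le_max_right _ _) hj)⟩⟩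
    exact (le_trans (le_max_left _ _) hj).trans (le_bb j)
  choose g hg using hg
  set G : ℕ → ℕ := fun m => (Finset.range (m + 1)).sup g with hG
  have hGm : Monotone G := fun a b hab => Finset.sup_mono (Finset.range_mono (by omega))
  have hGg : ∀ m, g m ≤ G m := fun m => Finset.le_sup (f := g) (Finset.mem_range.2 (by omega))
  set mu : ℕ → ℕ := fun j => max 2 (Nat.findGreatest (fun m => G m ≤ j) j) with hmu
  have hmono : Monotone mu := by
    intro i j hij
    refine max_le_max le_rfl ?_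
    exact Nat.findGreatest_mono (fun _ hk => le_trans hk hij) hij
  have hGmu : ∀ j ≥ G 2, G (mu j) ≤ j := by
    intro j hj
    rw [hmu]
    simp only
    rcases le_total 2 (Nat.findGreatest (fun m => G m ≤ j) j) with h | h
    · rw [max_eq_right h]
      exact Nat.findGreatest_of_ne_zero (P := fun m => G m ≤ j) rfl (by omega)
    · rw [max_eq_left h]
      exact hj
  have hsq : ∀ j ≥ G 2, mu j * mu j ≤ la j := by
    intro j hj
    exact (hg (mu j) j ((hGg _).trans (hGmu j hj))).2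
  refine ⟨mu, ⟨hmono, ?_, ?_⟩, ⟨G 2, ?_⟩, ?_⟩
  · intro j
    have : 2 ≤ mu j := le_max_left _ _
    omega
  · intro R
    obtain ⟨j0, hj0⟩ := la_unbounded (R * R)
    refine ⟨max (G 2) j0, fun j hj => ?_⟩
    have h1 := hsq j (le_trans (le_max_left _ _) hj)
    have h2 := hj0 j (le_trans (le_max_right _ _) hj)
    rcases le_total R (mu j) with h | h
    · exact (Nat.mul_le_mul_right _ h).trans h1
    · exact (Nat.mul_le_mul_left _ h).trans h2
  · intro j hj
    exact (hg (mu j) j ((hGg _).trans (hGmu j hj))).1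
  · intro M
    refine ⟨max M (G M), fun j hj => ?_⟩
    refine le_trans ?_ (le_max_right _ _)
    exact Nat.le_findGreatest (le_trans (le_max_left _ _) hj) (le_trans (le_max_right _ _) hj)

end Pool.Agent.Helper27.T5
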