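import Pool.Agent.Helper27.T5.SchDefs
import Pool.Agent.Helper27.T4.Phase
import Pool.Agent.Helper30.ET.Nj

/-!
# T5a: facts about the schedule
-/

set_option autoImplicit false

namespace Pool.Agent.Helper27.T5

open Finset Pool.Agent.Helper5.ET Pool.Agent.Helper27.T4 Pool.Agent.Helper37.T5

/-! ## the windows -/

theorem la_ge (j : ℕ) : 64 ≤ la j := log_ge (bb_ge_pow j)

theorem la_mono {i j : ℕ} (h : i ≤ j) : la i ≤ la j :=
  Nat.log_mono_right (bb_strictMono.monotone h)

theorem pow_la_le (j : ℕ) : 2 ^ la j ≤ bb j := Nat.pow_log_le_self 2 (ne_zero_of_ge (bb_ge_pow j))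

theorem lt_pow_la (j : ℕ) : bb j < 2 ^ (la j + 1) := Nat.lt_pow_succ_log_self (by norm_num) _

theorem la_succ_le (j : ℕ) : la (j + 1) ≤ la j + 1 := by
  have h1 := bb_succ_le j
  have h2 := lt_pow_la j
  have h3 := pow_la_le (j + 1)
  by_contra hc
  have h4 : 2 ^ (la j + 2) ≤ 2 ^ la (j + 1) := Nat.pow_le_pow_right (by norm_num) (by omega)
  have h5 : 2 ^ (la j + 2) = 2 * 2 ^ (la j + 1) := by ring
  omega

theorem la_unbounded (M : ℕ) : ∃ j0, ∀ j ≥ j0, M ≤ la j := by
  refine ⟨2 ^ M, fun j hj => ?_⟩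
  refine Nat.le_log_of_pow_le (by norm_num) (hj.trans (le_bb j))

theorem W_pos (m j i : ℕ) : 0 < W m j i := by unfold W; positivity

theorem rt_pos (m j : ℕ) : 0 < rt m j := by unfold rt; positivity

theorem mul_div_le' {m a i : ℕ} (hi : i ≤ m) : i * (a / m) ≤ a :=
  (Nat.mul_le_mul_right _ hi).trans (Nat.mul_div_le a m)

/-- `W (i) = rt * W (i+1)` -/
theorem W_succ {m j i : ℕ} (hi : i < m) : W m j i = rt m j * W m j (i + 1) := by
  have h : (i + 1) * (la j / m) ≤ la j := mul_div_le' (by omega)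
  unfold W rt
  rw [← pow_add]
  congr 1
  have h2 : (i + 1) * (la j / m) = i * (la j / m) + la j / m := by ring
  generalize la j / m = q at *
  omega

theorem W_zero (m j : ℕ) : W m j 0 = 2 ^ la j := by simp [W]

theorem W_zero_le (m j : ℕ) : W m j 0 ≤ bb j := by rw [W_zero]; exact pow_la_le j

theorem lt_W_zero (m j : ℕ) : bb j < 2 * W m j 0 := by
  rw [W_zero]
  have := lt_pow_la j
  rw [pow_succ] at this
  omega

theorem W_eq {m j i : ℕ} (hi : i ≤ m) : W m j 0 = rt m j ^ i * W m j i := by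
  induction i with
  | zero => simp
  | succ i ih =>
    rw [ih (by omega), W_succ (show i < m by omega), pow_succ]
    ring

theorem W_anti {m j i i' : ℕ} (h : i ≤ i') : W m j i' ≤ W m j i := by
  unfold W
  apply Nat.pow_le_pow_right (by norm_num)
  have := Nat.mul_le_mul_right (la j / m) h
  omega

theorem W_dvd {m j i i' : ℕ} (h : i ≤ i') : W m j i' ∣ W m j i := by
  unfold W
  apply Nat.pow_dvd_pow
  have := Nat.mul_le_mul_right (la j / m) h
  omega

/-- the windows of the first level grow with the era -/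
theorem W_mono_one {m : ℕ} {j j' : ℕ} (hm : 0 < m) (h : j' ≤ j) : W m j' 1 ≤ W m j 1 := by
  unfold W
  apply Nat.pow_le_pow_right (by norm_num)
  have h1 := la_mono h
  obtain ⟨d, hd⟩ := Nat.exists_eq_add_of_le h1
  rw [hd, one_mul, one_mul]
  have h2 : (la j' + d) / m ≤ la j' / m + d := by
    have h3 : la j' + d ≤ la j' + d * m := by nlinarith
    calc (la j' + d) / m ≤ (la j' + d * m) / m := Nat.div_le_div_right h3
      _ = la j' / m + d := Nat.add_mul_div_right _ _ hm
  have h4 : la j' / m ≤ la j' := Nat.div_le_self _ _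
  omega

/-- the windows of the level `i` grow with the era up to the factor `2 ^ i` -/
theorem W_mono {m : ℕ} {j j' i : ℕ} (hm : 0 < m) (h : j' ≤ j) (hi : i ≤ m) :
    W m j' i ≤ 2 ^ i * W m j i := by
  unfold W
  rw [← pow_add]
  apply Nat.pow_le_pow_right (by norm_num)
  have h1 := la_mono h
  have h2 := Nat.div_add_mod (la j') m
  have h3 := Nat.mod_lt (la j') hm
  have h4 := Nat.div_add_mod (la j) m
  have h5 := Nat.mod_lt (la j) hm
  have h6 : la j' / m ≤ la j / m := Nat.div_le_div_right h1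
  generalize la j' / m = q' at *
  generalize la j / m = q at *
  generalize la j' % m = r' at *
  generalize la j % m = r at *
  obtain ⟨e, rfl⟩ := Nat.exists_eq_add_of_le h6
  obtain ⟨c, rfl⟩ := Nat.exists_eq_add_of_le hi
  have e1 : (i + c) * (q' + e) + r = i * (q' + e) + (c * (q' + e) + r) := by ring
  have e2 : (i + c) * q' + r' = i * q' + (c * q' + r') := by ring
  have e3 : c * (q' + e) = c * q' + c * e := by ring
  rw [← h2, ← h4] at h1 ⊢
  rw [e1, e2, e3] at h1 ⊢
  rcases Nat.eq_zero_or_pos e with h8 | h8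
  · subst h8
    simp only [add_zero, mul_zero] at h1 ⊢
    omega
  · have h9 : c ≤ c * e := Nat.le_mul_of_pos_right c h8
    omega

/-! ## large eras: `10 * m ≤ la j` -/

theorem rt_ge {m j : ℕ} (hb : 10 * m ≤ la j) (hm : 0 < m) : 2 ^ 10 ≤ rt m j := by
  unfold rt
  apply Nat.pow_le_pow_right (by norm_num)
  exact (Nat.le_div_iff_mul_le hm).2 hb

theorem rt_le_W {m j i : ℕ} (hi : i < m) : rt m j ≤ W m j i := by
  rw [W_succ hi]
  exact Nat.le_mul_of_pos_right _ (W_pos _ _ _)

theorem W_ge {m j i : ℕ} (hb : 10 * m ≤ la j) (hi : i < m) : 2 ^ 10 ≤ W m j i :=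
  (rt_ge hb (by omega)).trans (rt_le_W hi)

theorem dvd_W {m j i : ℕ} (hb : 10 * m ≤ la j) (hi : i < m) : 2 ^ 10 ∣ W m j i := by
  have h := W_ge hb hi
  unfold W at h ⊢
  apply Nat.pow_dvd_pow
  exact (Nat.pow_le_pow_iff_right (by norm_num)).1 h

theorem PP_mul {m j i : ℕ} (hb : 10 * m ≤ la j) (hi : i < m) : 2 ^ 9 * PP m j i = W m j i := by
  unfold PP
  apply Nat.mul_div_cancel'
  exact (Nat.pow_dvd_pow 2 (by norm_num)).trans (dvd_W hb hi)

theorem PP_pos {m j i : ℕ} (hb : 10 * m ≤ la j) (hi : i < m) : 0 < PP m j i := by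
  have h := PP_mul hb hi
  have h2 := W_pos m j i
  omega

/-- the steps: `PP i = 2 * (rt / 2) * PP (i + 1)` -/
theorem PP_succ {m j i : ℕ} (hb : 10 * m ≤ la j) (hi : i + 1 < m) :
    PP m j i = 2 * (rt m j / 2) * PP m j (i + 1) := by
  have h1 := PP_mul hb (show i < m by omega)
  have h2 := PP_mul hb hi
  have h3 := W_succ (j := j) (show i < m by omega)
  have h4 : 2 * (rt m j / 2) = rt m j := by
    apply Nat.mul_div_cancel'
    unfold rt
    apply dvd_pow_self
    have := (Nat.le_div_iff_mul_le (show 0 < m by omega)).2 hb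
    omega
  rw [h4]
  apply Nat.eq_of_mul_eq_mul_left (show 0 < 2 ^ 9 by norm_num)
  rw [h1, h3, ← h2]
  ring

theorem rt_half_pos {m j : ℕ} (hb : 10 * m ≤ la j) (hm : 0 < m) : 0 < rt m j / 2 := by
  have := rt_ge hb hm
  omega

/-- `PP (i + 1)` is much smaller than `PP i` -/
theorem PP_succ_le {m j i : ℕ} (hb : 10 * m ≤ la j) (hi : i + 1 < m) :
    2 ^ 10 * PP m j (i + 1) ≤ PP m j i := by
  have h1 := PP_mul hb (show i < m by omega)
  have h2 := PP_mul hb hi
  have h3 := W_succ (j := j) (show i < m by omega)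
  have h4 := rt_ge hb (show 0 < m by omega)
  have h5 := Nat.mul_le_mul_right (W m j (i + 1)) h4
  rw [← h3, ← h1, ← h2] at h5
  have h6 : 2 ^ 9 * (2 ^ 10 * PP m j (i + 1)) ≤ 2 ^ 9 * PP m j i := by
    calc 2 ^ 9 * (2 ^ 10 * PP m j (i + 1)) = 2 ^ 10 * (2 ^ 9 * PP m j (i + 1)) := by ring
      _ ≤ _ := h5
  exact Nat.le_of_mul_le_mul_left h6 (by norm_num)

theorem PP_anti {m j i i' : ℕ} (h : i ≤ i') : PP m j i' ≤ PP m j i :=
  Nat.div_le_div_right (W_anti h)

theorem PP_lt {m j i i' : ℕ} (hb : 10 * m ≤ la j) (h : i < i') (hi : i' < m) :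
    2 ^ 10 * PP m j i' ≤ PP m j i := by
  obtain ⟨t, rfl⟩ := Nat.exists_eq_add_of_lt h
  have h1 := PP_succ_le hb hi
  have h2 := PP_anti (m := m) (j := j) (show i ≤ i + t by omega)
  exact h1.trans h2

/-! ## fronts -/

/-- the lead of the front `i` is between `11/2` and `13/2` steps -/
theorem two_ef_le (m i l : ℕ) : 2 * ef m i l ≤ 2 * l + 13 * PP m (era l) i := by
  have := two_fr_le (PP m (era l) i) 6 l
  unfold ef
  omega

theorem lt_two_ef {m i l : ℕ} (hb : 10 * m ≤ la (era l)) (hi : i < m) :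
    2 * l + 11 * PP m (era l) i < 2 * ef m i l := by
  have := lt_two_fr (PP m (era l) i) 6 l (PP_pos hb hi)
  unfold ef
  omega

theorem lt_ef {m i l : ℕ} (hb : 10 * m ≤ la (era l)) (hi : i < m) : l < ef m i l := by
  have := lt_two_ef hb hi
  omega

/-- `64 (e - l) ≤ W` -/
theorem ef_sub_le {m i l : ℕ} (hb : 10 * m ≤ la (era l)) (hi : i < m) :
    64 * (ef m i l - l) ≤ W m (era l) i := by
  have h1 := two_ef_le m i l
  have h2 := PP_mul hb hi
  omega

/-- `11 W < 1024 (e - l)` -/
theorem lt_ef_sub {m i l : ℕ} (hb : 10 * m ≤ la (era l)) (hi : i < m) :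
    11 * W m (era l) i < 1024 * (ef m i l - l) := by
  have h1 := lt_two_ef hb hi
  have h2 := PP_mul hb hi
  omega

/-- fronts of larger levels are further away -/
theorem ef_anti {m i i' l : ℕ} (hb : 10 * m ≤ la (era l)) (h : i ≤ i') (hi : i' < m) :
    ef m i' l ≤ ef m i l := by
  rcases Nat.eq_or_lt_of_le h with h1 | h1
  · rw [h1]
  · have h2 := PP_lt hb h1 hi
    have h3 := two_ef_le m i' l
    have h4 := lt_two_ef hb (show i < m by omega)
    omega

theorem ef_lt {m i i' l : ℕ} (hb : 10 * m ≤ la (era l)) (h : i < i') (hi : i' < m) :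
    ef m i' l < ef m i l := by
  have h2 := PP_lt hb h hi
  have h3 := two_ef_le m i' l
  have h4 := lt_two_ef hb (show i < m by omega)
  omega

/-- the fronts move forward inside an era -/
theorem ef_mono (m i : ℕ) {l l' : ℕ} (h : l' ≤ l) (he : era l' = era l) :
    ef m i l' ≤ ef m i l := by
  unfold ef
  rw [he]
  exact fr_mono _ _ h

theorem ef_le_add {m i l l' : ℕ} (hb : 10 * m ≤ la (era l)) (hi : i < m) (he : era l' = era l) :
    ef m i l < ef m i l' + (l - l') + PP m (era l) i := by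
  unfold ef
  rw [he]
  exact fr_le_add _ _ (PP_pos hb hi)

/-! ## used states -/

theorem used_bb {m l : ℕ} (h : used m l) : bb (era l) ≤ l := by
  have := h.1
  omega

theorem used_bb_zero {m l : ℕ} (h : used m l) : bb 0 ≤ l :=
  (bb_strictMono.monotone (Nat.zero_le _)).trans (used_bb h)

theorem used_ef {m i l : ℕ} (h : used m l) (hb : 10 * m ≤ la (era l)) (h1 : 1 ≤ i) (hi : i < m) :
    ef m i l + 200 * W m (era l) 1 ≤ bb (era l + 1) := by
  have h2 := ef_anti hb h1 hi
  have h3 := h.2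
  omega

theorem used_lt {m l : ℕ} (h : used m l) (hb : 10 * m ≤ la (era l)) (hm : 1 < m) :
    l + 200 * W m (era l) 1 < bb (era l + 1) := by
  have h2 := lt_ef hb hm
  have h3 := h.2
  omega

/-- the owner of all digits of the era of `l` -/
theorem own_era {l t : ℕ} (h1 : bb (era l) ≤ t) (h2 : t < bb (era l + 1)) :
    own t = fam (era l) := own_of_mem h1 h2

theorem own_used {m i l t : ℕ} (h : used m l) (hb : 10 * m ≤ la (era l)) (h1 : 1 ≤ i) (hi : i < m)
    (ht : bb (era l) ≤ t) (ht2 : t < ef m i l) : own t = fam (era l) := by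
  have := used_ef h hb h1 hi
  exact own_era ht (by omega)

/-- the front lies in the era -/
theorem era_ef {m i l : ℕ} (h : used m l) (hb : 10 * m ≤ la (era l)) (h1 : 1 ≤ i) (hi : i < m) :
    era (ef m i l) = era l := by
  have h2 := used_ef h hb h1 hi
  have h3 := lt_ef hb hi
  have h4 := used_bb h
  have h5 := W_pos m (era l) 1
  exact era_eq _ _ (by omega) (by omega)

theorem cnt_ef {m i l : ℕ} (h : used m l) (hb : 10 * m ≤ la (era l)) (h1 : 1 ≤ i) (hi : i < m)
    (f : Fin 3) : cnt f (ef m i l) =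
      if f = fam (era l) then cnt f l + (ef m i l - l) else cnt f l := by
  have he := era_ef h hb h1 hi
  rw [cnt_same_era (lt_ef hb hi).le he.symm f, he]

theorem Nj_era {l' l : ℕ} (h : l' ≤ l) (he : era l' = era l) :
    Nj l = Nj l' * pr (fam (era l)) ^ (l - l') := by
  rw [Pool.Agent.Helper30.ET.Nj_same_era h he]

theorem Nj_ef {m i l : ℕ} (h : used m l) (hb : 10 * m ≤ la (era l)) (h1 : 1 ≤ i) (hi : i < m) :
    Nj (ef m i l) = Nj l * pr (fam (era l)) ^ (ef m i l - l) := by
  have he := era_ef h hb h1 hi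
  rw [Nj_era (lt_ef hb hi).le he.symm, he]

/-- two used states of different eras are far apart -/
theorem used_far {m l l' : ℕ} (h : used m l) (h' : used m l') (he : era l' < era l) :
    ef m 1 l' + 200 * W m (era l') 1 + 200 * W m (era l) 1 ≤ l := by
  have h1 := h.1
  have h2 := h'.2
  have h3 : bb (era l' + 1) ≤ bb (era l) := bb_strictMono.monotone he
  omega

/-- a sufficient condition -/
theorem used_of {m j l : ℕ} (hb : 10 * m ≤ la j) (hm : 1 < m) (h1 : bb j + 200 * W m j 1 ≤ l)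
    (h2 : l + 201 * W m j 1 ≤ bb (j + 1)) : used m l ∧ era l = j := by
  have hW := W_pos m j 1
  have he : era l = j := era_eq l j (by omega) (by omega)
  refine ⟨⟨by rw [he]; exact h1, ?_⟩, he⟩
  have h3 := ef_sub_le (l := l) (by rw [he]; exact hb) hm
  rw [he] at h3 ⊢
  omega

theorem era_len {m j : ℕ} (hb : 10 * m ≤ la j) (hm : 0 < m) :
    bb j + 512 * W m j 1 ≤ bb (j + 1) := by
  have h1 := (bb_step j).1
  have h2 := W_zero_le m j
  rw [W_succ hm] at h2
  have h3 := Nat.mul_le_mul_right (W m j (0 + 1)) (rt_ge hb hm)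
  simp only [zero_add] at h2 h3
  omega

theorem exists_large (m : ℕ) : ∃ j0, ∀ j ≥ j0, 10 * m ≤ la j := la_unbounded _

/-- below every position there is a used state at distance at most `402 W` -/
theorem exists_used {m j0 : ℕ} (hj0 : ∀ j ≥ j0, 10 * m ≤ la j) (hm : 1 < m) {y : ℕ}
    (hy : bb (j0 + 1) ≤ y) :
    ∃ l ≤ y, used m l ∧ j0 ≤ era l ∧ y ≤ l + 402 * W m (era y) 1 := by
  have hy0 : bb 0 ≤ y := (bb_strictMono.monotone (Nat.zero_le _)).trans hy
  obtain ⟨h1, h2⟩ := era_spec y hy0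
  have hj : j0 + 1 ≤ era y := by
    by_contra hc
    have := bb_strictMono.monotone (show era y + 1 ≤ j0 + 1 by omega)
    omega
  set j := era y with hjdef
  have hb := hj0 j (by omega)
  have hlen := era_len hb (show 0 < m by omega)
  have hW := W_pos m j 1
  rcases Nat.lt_or_ge y (bb j + 200 * W m j 1) with hA | hA
  · obtain ⟨i, hi⟩ : ∃ i, j = i + 1 := ⟨j - 1, by omega⟩
    have hb' := hj0 i (by omega)
    have hlen' := era_len hb' (show 0 < m by omega)
    have hWW := W_mono_one (show 0 < m by omega) (show i ≤ j by omega)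
    rw [← hi] at hlen'
    obtain ⟨hu, he⟩ := used_of (l := bb j - 201 * W m i 1) hb' hm (by omega) (by rw [← hi]; omega)
    refine ⟨_, by omega, hu, by omega, by omega⟩
  · rcases Nat.lt_or_ge (bb (j + 1)) (y + 201 * W m j 1) with hB | hB
    · obtain ⟨hu, he⟩ := used_of (l := bb (j + 1) - 201 * W m j 1) hb hm (by omega) (by omega)
      refine ⟨_, by omega, hu, by omega, by omega⟩
    · obtain ⟨hu, he⟩ := used_of (l := y) hb hm (by omega) (by omega)
      exact ⟨y, le_rfl, hu, by omega, by omega⟩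

/-- a position of an era at distance `201 W` from both borders is used -/
theorem used_of_mem {m y : ℕ} (hb : 10 * m ≤ la (era y)) (hm : 1 < m)
    (h1 : bb (era y) + 200 * W m (era y) 1 ≤ y)
    (h2 : y + 201 * W m (era y) 1 ≤ bb (era y + 1)) : used m y := (used_of hb hm h1 h2).1

/-! ## common fronts -/

/-- two different fronts which have both jumped -/
theorem two_jumps {m i i' l l' : ℕ} (hb : 10 * m ≤ la (era l)) (h : i < i') (hi : i' < m)
    (hl : l' ≤ l) (he : era l' = era l) (h1 : ef m i l' ≠ ef m i l)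
    (h2 : ef m i' l' ≠ ef m i' l) : PP m (era l) i' < 2 * (l - l') := by
  obtain ⟨t, rfl⟩ := Nat.exists_eq_add_of_lt h
  -- `PP i = 2 N PP (i + t + 1)`
  have hN : ∀ t, i + t + 1 < m → ∃ N, 0 < N ∧ PP m (era l) i = 2 * N * PP m (era l) (i + t + 1) := by
    intro t
    induction t with
    | zero =>
      intro ht
      exact ⟨rt m (era l) / 2, rt_half_pos hb (by omega), PP_succ hb ht⟩
    | succ t ih =>
      intro ht
      obtain ⟨N, hN0, hN⟩ := ih (by omega)
      refine ⟨N * (2 * (rt m (era l) / 2)), ?_, ?_⟩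
      · have := rt_half_pos hb (show 0 < m by omega)
        positivity
      · rw [hN, PP_succ hb (show i + t + 1 + 1 < m by omega)]
        ring_nf
  obtain ⟨N, hN0, hN⟩ := hN t hi
  unfold ef at h1 h2
  rw [he] at h1 h2
  exact jump_sep (PP_pos hb hi) hN0 hN hl h1 h2

theorem dist_of_common {m i l l' : ℕ} (hb : 10 * m ≤ la (era l)) (hi : i < m) (hl : l' ≤ l)
    (he : era l' = era l) (h : ef m i l' = ef m i l) : l - l' < PP m (era l) i := by
  unfold ef at h
  rw [he] at h
  exact dist_lt (PP_pos hb hi) hl h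

theorem fc_le (m k l' l : ℕ) : fc m k l' l ≤ k + 1 := Nat.findGreatest_le _

theorem fc_spec {m k l' l : ℕ} (h : fc m k l' l ≠ 0) :
    1 ≤ fc m k l' l ∧ ef m (fc m k l' l) l' = ef m (fc m k l' l) l :=
  Nat.findGreatest_of_ne_zero (P := fun i => 1 ≤ i ∧ ef m i l' = ef m i l) rfl h

theorem fc_not {m k l' l i : ℕ} (h : fc m k l' l < i) (hi : i ≤ k + 1) :
    ef m i l' ≠ ef m i l := by
  intro hc
  exact Nat.findGreatest_is_greatest (P := fun i => 1 ≤ i ∧ ef m i l' = ef m i l) h hi
    ⟨by omega, hc⟩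

theorem fc_dist {m k l' l : ℕ} (hb : 10 * m ≤ la (era l)) (hk : k + 1 < m) (hl : l' ≤ l)
    (he : era l' = era l) (h : fc m k l' l ≠ 0) : l - l' < PP m (era l) (fc m k l' l) :=
  dist_of_common hb (by have := fc_le m k l' l; omega) hl he (fc_spec h).2

theorem fc_sep {m k l' l : ℕ} (hb : 10 * m ≤ la (era l)) (hk : k + 1 < m) (hl : l' ≤ l)
    (he : era l' = era l) (h : fc m k l' l + 2 ≤ k + 1) :
    PP m (era l) (fc m k l' l + 2) < 2 * (l - l') :=
  two_jumps hb (show fc m k l' l + 1 < fc m k l' l + 2 by omega) (by omega) hl he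
    (fc_not (k := k) (by omega) (by omega)) (fc_not (k := k) (by omega) (by omega))

/-- the fronts above the finest common one: the jump is at least one step -/
theorem fc_jump {m k l' l i : ℕ} (hl : l' ≤ l) (he : era l' = era l)
    (h : fc m k l' l < i) (hi : i ≤ k + 1) :
    ef m i l' + PP m (era l) i ≤ ef m i l := by
  have h1 := fc_not h hi
  unfold ef at h1 ⊢
  rw [he] at h1 ⊢
  exact fr_add_step _ _ hl h1

end Pool.Agent.Helper27.T5
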