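import Pool.Agent.Helper5.ET.Defs
import Pool.Agent.Helper37.T5.Sched

/-!
# T5a: definitions of the schedule

Positions are the digits of the chain of T4' (`bb`, `era`, `own`, `cnt`, `Nj` of `Helper5.ET.Defs`).
A state is a position `l` (unit steps).  In the era `j` there are windows
`W m j 1 > W m j 2 > ...` (in digits), `W m j (i-1) = rt m j * W m j i`.
-/

set_option autoImplicit false

namespace Pool.Agent.Helper27.T5

open Pool.Agent.Helper5.ET Pool.Agent.Helper37.T5

/-- binary logarithm of the border of the era `j` -/
def la (j : ℕ) : ℕ := Nat.log 2 (bb j)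

/-- quotient of two consecutive windows -/
def rt (m j : ℕ) : ℕ := 2 ^ (la j / m)

/-- window of the level `i` in the era `j` (in digits) -/
def W (m j i : ℕ) : ℕ := 2 ^ (la j - i * (la j / m))

/-- step of the front of the level `i` in the era `j` -/
def PP (m j i : ℕ) : ℕ := W m j i / 2 ^ 9

/-- position of the front of the level `i` in the state `l` -/
def ef (m i l : ℕ) : ℕ := fr (PP m (era l) i) 6 l

/-- the used states -/
def used (m l : ℕ) : Prop :=
  bb (era l) + 200 * W m (era l) 1 ≤ l ∧ ef m 1 l + 200 * W m (era l) 1 ≤ bb (era l + 1)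

instance (m l : ℕ) : Decidable (used m l) := by unfold used; infer_instance

/-- finest common front of two states (`0` if there is none), `k + 1` levels -/
def fc (m k l' l : ℕ) : ℕ :=
  Nat.findGreatest (fun i => 1 ≤ i ∧ ef m i l' = ef m i l) (k + 1)

/-- the primes of the static levels: `sp (3 * i + f)` -/
noncomputable def sp (n : ℕ) : ℕ := Nat.nth Nat.Prime (n + 10 ^ 6)

/-- weights (in eighths) of the three families of a static level -/
def gw : Fin 3 → ℕ := ![3, 3, 2]

/-- exponent of the prime of the family `f` of the static level `i ≥ 2` in the era `j` -/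
noncomputable def zz (m j i : ℕ) (f : Fin 3) : ℕ :=
  Nat.log (sp (3 * i + f)) ((10 ^ 6) ^ (gw f * (W m j (i - 1) - W m j i) / 8))

end Pool.Agent.Helper27.T5
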